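import Pool.Agent.V11238.AIP.Step

/-!
# AIP-solvability of `PCSP(1-in-3, B)` is not witnessed by the templates `E_{3^p} × NAE`

There is a finite structure `B` with one ternary relation and `1in3 → B` such that AIP solves
`PCSP(1in3, B)`, but there is no homomorphism `E_m × NAE → B` for any `m ≥ 1`; in particular there is
none for `m = 3^p`.

Construction: the colour `psi x` of an integer `x` consists of `x` modulo 27, of the 3-adic valuation
of `x` modulo 3 and of the unit part of `x` modulo 27. The domain of `B` is the set of the pairs of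
colours, and its relation consists of the triples `(f x, f y, f z)` with `x + y + z = 1`, where
`f x = (psi x, psi (x - 1))`. So `f` is a homomorphism from the structure `Z` of all integers to `B`,
and AIP solves `PCSP(1in3, B)`. If there were a homomorphism from `E_m × NAE` to `B`, then the
residues modulo 27 show that it is induced by an affine map on this level; near `0` and near `1` one
sees more and more 3-adic digits, level by level, since the colours see three digits beginning at
the lowest nonzero digit of `x` or of `x - 1`, and this contradicts the periodicity modulo `m`.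
-/

set_option autoImplicit false

namespace Pool.Agent.Results.MP_981e77_lc.NoFiniteTemplate

/-- `h` is a homomorphism from the structure on `X` with the ternary relation `R` to the structure
on `Y` with the ternary relation `S`. Triples of elements of `X` are functions from `Fin 3` to `X`. -/
def IsHom {X Y : Type} (R : Set (Fin 3 → X)) (S : Set (Fin 3 → Y)) (h : X → Y) : Prop :=
  ∀ t ∈ R, (fun i => h (t i)) ∈ S

/-- The relation of the structure `1in3` on `{0, 1}`. -/
def oneInThree : Set (Fin 3 → Fin 2) := {![1, 0, 0], ![0, 1, 0], ![0, 0, 1]}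

/-- The relation of the structure `NAE` on `{0, 1}`. -/
def nae : Set (Fin 3 → Fin 2) := {t | t ≠ ![0, 0, 0] ∧ t ≠ ![1, 1, 1]}

/-- The relation of the structure `E_m` on `{0, ..., m - 1}`: the sum is `1` modulo `m`. -/
def cyc (m : ℕ) : Set (Fin 3 → Fin m) := {t | (t 0 : ℕ) + (t 1 : ℕ) + (t 2 : ℕ) ≡ 1 [MOD m]}

/-- The relation of the product of two structures. -/
def prod {X Y : Type} (R : Set (Fin 3 → X)) (S : Set (Fin 3 → Y)) : Set (Fin 3 → X × Y) :=
  {t | (fun i => (t i).1) ∈ R ∧ (fun i => (t i).2) ∈ S}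

open Classical in
/-- The affine integer programming relaxation of the instance `(X, T)` of the homomorphism problem
for the template `(A, R)` has a solution: there are integers `l x a` for `x` in `X` and `a` in `A`,
and `k t s` for `t` in `T` and `s` in `R`, such that the `l x a` have sum `1` for each `x`, the
`k t s` have sum `1` for each `t`, and `l (t i) a` is the sum of the `k t s` with `s i = a`. -/
def AIPAccepts {X A : Type} [Fintype A] (T : Set (Fin 3 → X)) (R : Set (Fin 3 → A)) : Prop :=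
  ∃ (l : X → A → ℤ) (k : (Fin 3 → X) → (Fin 3 → A) → ℤ), (∀ x, ∑ a, l x a = 1) ∧
    ∀ t ∈ T, (∑ s ∈ Finset.univ.filter (fun s => s ∈ R), k t s = 1) ∧
      ∀ (i : Fin 3) (a : A), l (t i) a = ∑ s ∈ Finset.univ.filter (fun s => s ∈ R ∧ s i = a), k t s

/-- AIP solves the promise problem of the templates `(A, R)` and `(B, S)`: every finite instance
accepted by AIP has a homomorphism to `(B, S)`. -/
def AIPSolves {A B : Type} [Fintype A] (R : Set (Fin 3 → A)) (S : Set (Fin 3 → B)) : Prop :=
  ∀ (X : Type) [Finite X] (T : Set (Fin 3 → X)), AIPAccepts T R → ∃ h : X → B, IsHom T S h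

open Pool.Agent.V11238.AIP

/-- The homomorphism from the structure `Z` of the integers. -/
def f (x : ℤ) : Col × Col := (psi x, psi (x - 1))

/-- The relation of `B`. -/
def rel : Set (Fin 3 → Col × Col) :=
  {t | ∃ x : Fin 3 → ℤ, x 0 + x 1 + x 2 = 1 ∧ ∀ i, t i = f (x i)}

theorem one_hom : ∃ h : Fin 2 → Col × Col, IsHom oneInThree rel h := by
  refine ⟨fun a => f ((a : ℕ) : ℤ), ?_⟩
  intro t ht
  refine ⟨fun i => ((t i : ℕ) : ℤ), ?_, fun i => rfl⟩
  rcases ht with rfl | rfl | rfl <;> simp

theorem filt (s0 : Fin 3 → Fin 2) (i : Fin 3)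
    (h : ∀ s : Fin 3 → Fin 2, (s ∈ oneInThree ∧ s i = 1) ↔ s = s0) (g : (Fin 3 → Fin 2) → ℤ)
    [DecidablePred fun s : Fin 3 → Fin 2 => s ∈ oneInThree ∧ s i = 1] :
    ∑ s ∈ Finset.univ.filter (fun s => s ∈ oneInThree ∧ s i = 1), g s = g s0 := by
  have : Finset.univ.filter (fun s => s ∈ oneInThree ∧ s i = 1) = {s0} := by
    ext s; simp [h s]
  rw [this, Finset.sum_singleton]

theorem filt3 (g : (Fin 3 → Fin 2) → ℤ)
    [DecidablePred fun s : Fin 3 → Fin 2 => s ∈ oneInThree] :
    ∑ s ∈ Finset.univ.filter (fun s => s ∈ oneInThree), g s =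
      g ![1, 0, 0] + g ![0, 1, 0] + g ![0, 0, 1] := by
  have : Finset.univ.filter (fun s => s ∈ oneInThree) = {![1, 0, 0], ![0, 1, 0], ![0, 0, 1]} := by
    ext s; simp [oneInThree]
  rw [this, Finset.sum_insert (by decide), Finset.sum_insert (by decide), Finset.sum_singleton]
  ring

theorem solves : AIPSolves oneInThree rel := by
  classical
  intro X _ T hT
  obtain ⟨l, k, -, hk⟩ := hT
  refine ⟨fun x => f (l x 1), ?_⟩
  intro t ht
  obtain ⟨h1, h2⟩ := hk t ht
  refine ⟨fun i => l (t i) 1, ?_, fun i => rfl⟩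
  simp only
  rw [filt3 (k t)] at h1
  rw [h2 0 1, h2 1 1, h2 2 1, filt ![1, 0, 0] 0, filt ![0, 1, 0] 1, filt ![0, 0, 1] 2, h1]
  · intro s
    simp only [oneInThree, Set.mem_insert_iff, Set.mem_singleton_iff]
    constructor
    · rintro ⟨rfl | rfl | rfl, h⟩ <;> first | rfl | (exfalso; revert h; decide)
    · rintro rfl; exact ⟨Or.inr (Or.inr rfl), rfl⟩
  · intro s
    simp only [oneInThree, Set.mem_insert_iff, Set.mem_singleton_iff]
    constructor
    · rintro ⟨rfl | rfl | rfl, h⟩ <;> first | rfl | (exfalso; revert h; decide)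
    · rintro rfl; exact ⟨Or.inr (Or.inl rfl), rfl⟩
  · intro s
    simp only [oneInThree, Set.mem_insert_iff, Set.mem_singleton_iff]
    constructor
    · rintro ⟨rfl | rfl | rfl, h⟩ <;> first | rfl | (exfalso; revert h; decide)
    · rintro rfl; exact ⟨Or.inl rfl, rfl⟩

/-- The homomorphism as a periodic function of integers. -/
def per {m : ℕ} (hm : 1 ≤ m) (h : Fin m × Fin 2 → Col × Col) (x : ℤ) (b : Fin 2) : Col × Col :=
  h (⟨(x % m).toNat, by
    have h1 : 0 ≤ x % m := Int.emod_nonneg _ (by omega)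
    have h2 : x % m < m := Int.emod_lt_of_pos _ (by omega)
    omega⟩, b)

theorem per_add {m : ℕ} (hm : 1 ≤ m) (h : Fin m × Fin 2 → Col × Col) (x w : ℤ) (b : Fin 2) :
    per hm h (x + w * m) b = per hm h x b := by
  unfold per
  congr 3
  simp

theorem per_rel {m : ℕ} (hm : 1 ≤ m) (h : Fin m × Fin 2 → Col × Col)
    (hh : IsHom (prod (cyc m) nae) rel h) (x y z : ℤ) (hs : x + y + z = 1) (b0 b1 b2 : Fin 2)
    (hb : ¬ (b0 = b1 ∧ b1 = b2)) : ∃ X Y Z : ℤ, X + Y + Z = 1 ∧ per hm h x b0 = f X ∧
      per hm h y b1 = f Y ∧ per hm h z b2 = f Z := by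
  have hx0 : 0 ≤ x % m := Int.emod_nonneg _ (by omega)
  have hx1 : x % m < m := Int.emod_lt_of_pos _ (by omega)
  have hy0 : 0 ≤ y % m := Int.emod_nonneg _ (by omega)
  have hy1 : y % m < m := Int.emod_lt_of_pos _ (by omega)
  have hz0 : 0 ≤ z % m := Int.emod_nonneg _ (by omega)
  have hz1 : z % m < m := Int.emod_lt_of_pos _ (by omega)
  let t : Fin 3 → Fin m × Fin 2 := ![(⟨(x % m).toNat, by omega⟩, b0),
    (⟨(y % m).toNat, by omega⟩, b1), (⟨(z % m).toNat, by omega⟩, b2)]
  have ht : t ∈ prod (cyc m) nae := by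
    refine ⟨?_, ?_⟩
    · change (x % m).toNat + (y % m).toNat + (z % m).toNat ≡ 1 [MOD m]
      rw [← Int.natCast_modEq_iff]
      push_cast
      rw [Int.toNat_of_nonneg hx0, Int.toNat_of_nonneg hy0, Int.toNat_of_nonneg hz0]
      calc x % m + y % m + z % m ≡ x + y + z [ZMOD m] :=
            ((Int.mod_modEq x m).add (Int.mod_modEq y m)).add (Int.mod_modEq z m)
        _ = 1 := hs
    · constructor
      · intro hc
        apply hb
        have e0 := congrFun hc 0
        have e1 := congrFun hc 1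
        have e2 := congrFun hc 2
        change b0 = 0 at e0
        change b1 = 0 at e1
        change b2 = 0 at e2
        exact ⟨by rw [e0, e1], by rw [e1, e2]⟩
      · intro hc
        apply hb
        have e0 := congrFun hc 0
        have e1 := congrFun hc 1
        have e2 := congrFun hc 2
        change b0 = 1 at e0
        change b1 = 1 at e1
        change b2 = 1 at e2
        exact ⟨by rw [e0, e1], by rw [e1, e2]⟩
  obtain ⟨X, hX, hX'⟩ := hh t ht
  exact ⟨X 0, X 1, X 2, hX, hX' 0, hX' 1, hX' 2⟩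

theorem no_hom (m : ℕ) (hm : 1 ≤ m) : ¬ ∃ h : Fin m × Fin 2 → Col × Col,
    IsHom (prod (cyc m) nae) rel h := by
  rintro ⟨h, hh⟩
  have R := per_rel hm h hh
  have psi1 : ∀ x : ℤ, (psi x).1 = (x : ZMod 27) := fun x => rfl
  set φ : Fin 2 → ℤ → ZMod 27 := fun b x => (per hm h x b).1.1 with hφ
  have S : ∀ x y z : ℤ, x + y + z = 1 → ∀ b0 b1 b2 : Fin 2, ¬ (b0 = b1 ∧ b1 = b2) →
      φ b0 x + φ b1 y + φ b2 z = 1 := by
    intro x y z hs b0 b1 b2 hb
    obtain ⟨X, Y, Z, hX, e0, e1, e2⟩ := R x y z hs b0 b1 b2 hb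
    simp only [hφ]
    rw [e0, e1, e2]
    simp only [f, psi1]
    have : ((X + Y + Z : ℤ) : ZMod 27) = 1 := by rw [hX]; simp
    push_cast at this
    exact this
  have eqb : ∀ x, φ 1 x = φ 0 x := by
    intro x
    have h1 := S x 0 (1 - x) (by ring) 1 1 0 (by decide)
    have h2 := S x 0 (1 - x) (by ring) 0 1 0 (by decide)
    linear_combination h1 - h2
  have add1 : ∀ x y, φ 0 x + φ 0 y + φ 0 (1 - x - y) = 1 := by
    intro x y
    have h1 := S x y (1 - x - y) (by ring) 1 0 0 (by decide)
    rw [eqb] at h1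
    exact h1
  set α : ZMod 27 := φ 0 0 with hα
  have addφ : ∀ x y, φ 0 (x + y) - α = (φ 0 x - α) + (φ 0 y - α) := by
    intro x y
    have h1 := add1 x y
    have h2 := add1 (x + y) 0
    have e : 1 - (x + y) - 0 = 1 - x - y := by ring
    rw [e, ← hα] at h2
    linear_combination h2 - h1
  let g : ℤ →+ ZMod 27 := AddMonoidHom.mk' (fun x => φ 0 x - α) addφ
  have lin : ∀ x : ℤ, φ 0 x = α + (x : ZMod 27) * (φ 0 1 - α) := by
    intro x
    have h1 : g x = x • g 1 := by
      have := map_zsmul g x 1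
      simpa using this
    have h2 : φ 0 x - α = (x : ZMod 27) * (φ 0 1 - α) := by
      have : φ 0 x - α = x • (φ 0 1 - α) := h1
      rw [this, zsmul_eq_mul]
    linear_combination h2
  have hα3 : 3 * α + (φ 0 1 - α) = 1 := by
    have h1 := add1 0 0
    have e : (1 : ℤ) - 0 - 0 = 1 := by norm_num
    rw [e, ← hα] at h1
    linear_combination h1
  obtain ⟨α', hα'⟩ : ∃ a : ℤ, (a : ZMod 27) = α := ⟨α.val, by simp⟩
  set w : ℤ := 1 + 3 * α' + 9 * α' ^ 2 with hw
  have hwm : (w : ZMod 27) * (φ 0 1 - α) = 1 := by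
    have e1 : φ 0 1 - α = 1 - 3 * α := by linear_combination hα3
    have e27 : (27 : ZMod 27) = 0 := by decide
    rw [e1, hw]; push_cast; rw [hα']
    linear_combination (-(α ^ 3)) * e27
  have pos0 : ∀ s : ℤ, φ 0 (-(w * α') + w * s) = (s : ZMod 27) := by
    intro s
    rw [lin]; push_cast; rw [hα']
    linear_combination (-α + (s : ZMod 27)) * hwm
  have pos1 : ∀ s : ℤ, φ 0 (1 + 2 * (w * α') + w * s) = 1 + (s : ZMod 27) := by
    intro s
    rw [lin]; push_cast; rw [hα']
    linear_combination (2 * α + (s : ZMod 27)) * hwm + hα3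
  have im : ∀ (x : ℤ) (b : Fin 2), ∃ X : ℤ, per hm h x b = f X := by
    intro x b
    obtain ⟨X, -, -, -, e, -, -⟩ := R x 0 (1 - x) (by ring) b 1 0 (by
      rintro ⟨-, h⟩; exact absurd h (by decide))
    exact ⟨X, e⟩
  have nine : ∀ X k : ℤ, (X : ZMod 27) = (k : ZMod 27) → (9 : ℤ) ∣ X - k := by
    intro X k e
    rw [zmod27] at e
    omega
  refine not_periodic (fun s => (per hm h (-(w * α') + w * s) 1).1)
    (fun s => (per hm h (-(w * α') + w * s) 0).1)
    (fun s => (per hm h (1 + 2 * (w * α') + w * s) 0).2) ?_ ?_ ?_ ?_ m (by omega) ?_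
  · intro s1 s2 s3 hs
    obtain ⟨X, Y, Z, hX, e0, e1, e2⟩ := R (-(w * α') + w * s1) (-(w * α') + w * s2)
      (1 + 2 * (w * α') + w * s3) (by linear_combination w * hs) 1 0 0 (by decide)
    refine ⟨X, Y, Z - 1, by linarith, ?_, ?_, ?_⟩
    · rw [e0]; rfl
    · rw [e1]; rfl
    · rw [e2]; rfl
  · intro k
    obtain ⟨X, e⟩ := im (-(w * α') + w * k) 1
    refine ⟨X, by rw [e]; rfl, nine X k ?_⟩
    have h1 : φ 1 (-(w * α') + w * k) = (X : ZMod 27) := by simp only [hφ]; rw [e]; rfl
    rw [← h1, eqb, pos0]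
  · intro k
    obtain ⟨X, e⟩ := im (-(w * α') + w * k) 0
    refine ⟨X, by rw [e]; rfl, nine X k ?_⟩
    have h1 : φ 0 (-(w * α') + w * k) = (X : ZMod 27) := by simp only [hφ]; rw [e]; rfl
    rw [← h1, pos0]
  · intro k
    obtain ⟨X, e⟩ := im (1 + 2 * (w * α') + w * k) 0
    refine ⟨X - 1, by rw [e]; rfl, nine (X - 1) k ?_⟩
    have h1 : φ 0 (1 + 2 * (w * α') + w * k) = (X : ZMod 27) := by simp only [hφ]; rw [e]; rfl
    push_cast
    rw [← h1, pos1]; ring
  · intro s
    rw [← per_add hm h (-(w * α') + w * s) w 1]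
    congr 2
    ring

/-- There is a finite structure `(B, S)` with one ternary relation and a homomorphism from `1in3`
such that AIP solves `PCSP(1in3, B)` and such that for no `m ≥ 1` there is a homomorphism from
`E_m × NAE` to `B`. -/
theorem result : ∃ (B : Type) (_ : Finite B) (S : Set (Fin 3 → B)),
    (∃ h : Fin 2 → B, IsHom oneInThree S h) ∧ AIPSolves oneInThree S ∧
    ∀ m : ℕ, 1 ≤ m → ¬ ∃ h : Fin m × Fin 2 → B, IsHom (prod (cyc m) nae) S h :=
  ⟨Col × Col, inferInstance, rel, one_hom, solves, no_hom⟩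

end Pool.Agent.Results.MP_981e77_lc.NoFiniteTemplate
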